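import Mathlib
import Pool.Agent.Run7.h452.GF.Comp
import Pool.Agent.Run7.h452.GF.Source

/-!
Family equivalence of context-free grammar forms (under letter-to-letter interpretations) is
undecidable, even for linear grammars.
-/

set_option autoImplicit false

namespace Pool.Agent.Results.MP_3cd25e_lc.FamilyEquivalenceUndecidable

/-- a letter: a nonterminal `Sum.inl A` or a terminal `Sum.inr a`; both are numbered by the natural
numbers -/
abbrev Sym := ℕ ⊕ ℕ

/-- a grammar: its start symbol and the finite list of its productions `(A, β)`, read `A → β` -/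
abbrev Grammar := ℕ × List (ℕ × List Sym)

/-- there is no production `A → λ` -/
def NoErasing (G : Grammar) : Prop := ∀ p ∈ G.2, p.2 ≠ []

/-- every right side contains at most one nonterminal -/
def Linear (G : Grammar) : Prop := ∀ p ∈ G.2, (p.2.filter Sum.isLeft).length ≤ 1

/-- one derivation step -/
def Step (G : Grammar) (u v : List Sym) : Prop :=
  ∃ (l r : List Sym) (A : ℕ) (β : List Sym), (A, β) ∈ G.2 ∧ u = l ++ Sum.inl A :: r ∧
    v = l ++ β ++ r

/-- the language generated by `G`: a set of words in the terminals -/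
def language (G : Grammar) : Set (List ℕ) :=
  {w | Relation.ReflTransGen (Step G) [Sum.inl G.1] (w.map Sum.inr)}

/-- the letter `x'` belongs to `σ(x)`, where `σ` is `σN` on nonterminals and `σT` on terminals -/
def InSigma (σN σT : ℕ → Finset ℕ) (x' x : Sym) : Prop :=
  (∃ A' A, x' = Sum.inl A' ∧ x = Sum.inl A ∧ A' ∈ σN A) ∨
    ∃ a' a, x' = Sum.inr a' ∧ x = Sum.inr a ∧ a' ∈ σT a

/-- `G'` is an interpretation of `G` by means of `σ = (σN, σT)`: distinct letters have disjoint
images, the start symbol of `G'` is in `σ` of the start symbol of `G`, and every production of `G'`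
arises from a production of `G` by replacing every occurrence of a letter by an element of its
image -/
structure IsInterpretation (σN σT : ℕ → Finset ℕ) (G' G : Grammar) : Prop where
  disjN : ∀ A B, A ≠ B → Disjoint (σN A) (σN B)
  disjT : ∀ a b, a ≠ b → Disjoint (σT a) (σT b)
  start : G'.1 ∈ σN G.1
  prods : ∀ p' ∈ G'.2, ∃ p ∈ G.2, p'.1 ∈ σN p.1 ∧ List.Forall₂ (InSigma σN σT) p'.2 p.2

/-- the family of the languages of the interpretations of `G` -/
def family (G : Grammar) : Set (Set (List ℕ)) :=
  {L | ∃ (σN σT : ℕ → Finset ℕ) (G' : Grammar), IsInterpretation σN σT G' G ∧ L = language G'}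

open Run7.h452.GF in
theorem inSigma_iff (σN σT : ℕ → Finset ℕ) (x' x : Sym) :
    InSigma σN σT x' x ↔ Over σN σT x' x := by
  rcases x' with x' | x' <;> rcases x with x | x <;> simp [InSigma, Over]

open Run7.h452.GF in
theorem toIntS {σN σT : ℕ → Finset ℕ} {G' G : Grammar} (h : IsInterpretation σN σT G' G) :
    IntS σN σT G'.1 (pset G'.2) G.1 (pset G.2) where
  dN := h.disjN
  dT := h.disjT
  st := h.start
  pr := by
    intro p' hp'
    obtain ⟨p, hp, h1, h2⟩ := h.prods p' hp'
    exact ⟨p, hp, h1, h2.imp fun a b hab => (inSigma_iff σN σT a b).1 hab⟩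

open Run7.h452.GF in
theorem ofIntS {σN σT : ℕ → Finset ℕ} {G' G : Grammar}
    (h : IntS σN σT G'.1 (pset G'.2) G.1 (pset G.2)) : IsInterpretation σN σT G' G where
  disjN := h.dN
  disjT := h.dT
  start := h.st
  prods := by
    intro p' hp'
    obtain ⟨p, hp, h1, h2⟩ := h.pr p' hp'
    exact ⟨p, hp, h1, h2.imp fun a b hab => (inSigma_iff σN σT a b).2 hab⟩

open Run7.h452.GF in
theorem mem_language (G : Grammar) (w : List ℕ) :
    w ∈ language G ↔ Yield (pset G.2) [Sum.inl G.1] w :=
  derives_iff (P := pset G.2)

open Run7.h452.GF in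
theorem family_eq_iff (q : List (List ℕ) × List (List ℕ)) (hq : q.1.length = q.2.length) :
    family (0, sm q) = family (0, lg q) ↔ ¬ Sol q.1.length q.1 q.2 := by
  have H := good q hq
  constructor
  · intro he hs
    have h1 : language (0, lg q) ∈ family (0, lg q) := by
      refine ⟨fun x => {x}, fun x => {x}, (0, lg q), ⟨?_, ?_, ?_, ?_⟩, rfl⟩
      · intro A B hAB
        simpa using hAB
      · intro A B hAB
        simpa using hAB
      · simp
      · intro p hp
        refine ⟨p, hp, by simp, ?_⟩
        rw [List.forall₂_same]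
        intro x _
        rcases x with x | x <;> simp [InSigma]
    rw [← he] at h1
    obtain ⟨σN, σT, G', hI, hl⟩ := h1
    refine no_int H hs (toIntS hI) fun w => ?_
    have := Set.ext_iff.1 hl w
    rw [mem_language, mem_language] at this
    exact this.symm
  · intro hns
    apply Set.Subset.antisymm
    · rintro L ⟨σN, σT, G', hI, rfl⟩
      refine ⟨σN, σT, G', ⟨hI.disjN, hI.disjT, hI.start, ?_⟩, rfl⟩
      intro p' hp'
      obtain ⟨p, hp, h1, h2⟩ := hI.prods p' hp'
      exact ⟨p, List.mem_append_left _ hp, h1, h2⟩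
    · rintro L ⟨σN, σT, G', hI, rfl⟩
      have hI' := toIntS hI
      have c : Ctx (pset (sm q)) (pset (lg q)) := ctx H hns
      have hfin : (newP (pset (sm q)) (pset G'.2) σN σT).Finite :=
        newP_finite (List.finite_toSet (sm q)) (List.finite_toSet G'.2)
      obtain ⟨σ'', hσ⟩ := new_int c (List.finite_toSet G'.2) hI'
      have hset : pset hfin.toFinset.toList = newP (pset (sm q)) (pset G'.2) σN σT := by
        ext p
        simp [pset]
      refine ⟨σ'', σT, (2 * G'.1, hfin.toFinset.toList), ofIntS ?_, ?_⟩
      · simp only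
        rw [hset]
        exact hσ
      · ext w
        rw [mem_language, mem_language]
        simp only
        rw [hset]
        exact (new_lang c hI' w).symm

open Run7.h452.GF Pool.Agent.Helper247 in
/-- **Family equivalence is undecidable**, even if both grammars are linear. -/
theorem result : ¬ ∃ d : Grammar × Grammar → Bool, Computable d ∧
    ∀ G₁ G₂ : Grammar, NoErasing G₁ → NoErasing G₂ → Linear G₁ → Linear G₂ →
      (d (G₁, G₂) = true ↔ family G₁ = family G₂) := by
  rintro ⟨d, hd, hspec⟩
  obtain ⟨F, hF, hlen, -, hsol⟩ := Source.family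
  apply Univ.u_not_computable
  rw [ComputablePred.computable_iff]
  let red : ℕ → Grammar × Grammar := fun n => ((0, sm (F n)), (0, lg (F n)))
  have hred : Computable red := by
    have h1 : Primrec (fun q : List (List ℕ) × List (List ℕ) =>
        (((0 : ℕ), sm q), ((0 : ℕ), lg q))) :=
      Primrec.pair (Primrec.pair (Primrec.const 0) primrec_sm)
        (Primrec.pair (Primrec.const 0) primrec_lg)
    exact h1.to_comp.comp hF
  refine ⟨fun n => !(d (red n)), (Primrec.not.to_comp.comp (hd.comp hred)), ?_⟩
  funext n
  have h1 := hspec (0, sm (F n)) (0, lg (F n)) (fun p hp => (sm_lin _ p hp).1)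
    (fun p hp => (lg_lin _ p hp).1) (fun p hp => (sm_lin _ p hp).2) (fun p hp => (lg_lin _ p hp).2)
  rw [family_eq_iff (F n) (hlen n)] at h1
  have h2 : Sol (F n).1.length (F n).1 (F n).2 ↔ (Univ.u n).Dom := hsol n
  apply propext
  rw [← h2]
  have h3 : (!(d (red n))) = true ↔ ¬ (d (red n) = true) := by
    cases d (red n) <;> simp
  have h4 : d (red n) = true ↔ ¬ Sol (F n).1.length (F n).1 (F n).2 := h1
  rw [h3, h4, not_not]

end Pool.Agent.Results.MP_3cd25e_lc.FamilyEquivalenceUndecidable
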